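import Pool.Agent.H25.AmpPath

set_option autoImplicit false

namespace Pool.Agent.Results.MP_84cbe7_co.Helix

open Pool.Agent.H25.Amp

/-- A tree and an admissible configuration whose amplitude has real part below one. -/
theorem result : ∃ (T : SimpleGraph (Fin 18)) (_ : DecidableRel T.Adj), T.IsTree ∧
    ∃ (x : Fin 18 → EuclideanSpace ℝ (Fin 3)) (ψ : T.Dart → Fin 2 → ℂ) (Δ : Finset T.Dart),
      Spinors T x ψ ∧ Orientation T Δ ∧ (amp T ψ Δ).re < 1 :=
  ⟨Path.G, inferInstance, Path.tree, _, _, _, Path.spinors, Path.orient, Path.value⟩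

end Pool.Agent.Results.MP_84cbe7_co.Helix
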